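import Mathlib

/-!
A Markov inequality at an end point for real polynomials of degree at most `d` whose coefficients
have absolute sum at most `M` and which are bounded by `X` on `[0,1]`: the derivative at `1` is
`O(d X (1 + log (M/X)))`.
-/

open Finset Polynomial

namespace Pool.Agent.Helper91.MB

/-- Markov's inequality at an end point of `[0,y0]`. -/
lemma markov_end {J : ℕ} {P : ℝ[X]} (hP : P.natDegree ≤ J) {M y0 : ℝ} (hM : 0 < M) (hy : 0 < y0)
    (h : ∀ y, 0 ≤ y → y ≤ y0 → |P.eval y| ≤ M) :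
    |(derivative P).eval 0| ≤ 2 * (J : ℝ) ^ 2 * M / y0 := by
  have key : ∀ σ : ℝ, |σ| = 1 → σ / M * ((derivative P).eval 0 * (-(y0 / 2))) ≤ (J : ℝ) ^ 2 := by
    intro σ hσ
    set L : ℝ[X] := C (y0 / 2) - C (y0 / 2) * X with hL
    set Q : ℝ[X] := C (σ / M) * P.comp L with hQ
    have hLdeg : L.natDegree ≤ 1 := by
      rw [hL]
      refine (natDegree_sub_le _ _).trans ?_
      simp only [natDegree_C, max_le_iff, Nat.zero_le, true_and]
      exact (natDegree_C_mul_le _ _).trans natDegree_X_le
    have hQdeg : Q.degree ≤ J := by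
      apply Polynomial.degree_le_of_natDegree_le
      rw [hQ]
      refine (natDegree_C_mul_le _ _).trans ?_
      refine natDegree_comp_le.trans ?_
      calc P.natDegree * L.natDegree ≤ J * 1 := Nat.mul_le_mul hP hLdeg
        _ = J := by ring
    have hQe : ∀ t, Q.eval t = σ / M * P.eval (y0 / 2 - y0 / 2 * t) := by
      intro t
      simp [hQ, hL, eval_comp]
    have hbd : ∀ x ∈ Set.Icc (-1 : ℝ) 1, |Q.eval x| ≤ 1 := by
      intro x hx
      rw [hQe, abs_mul, abs_div, hσ, abs_of_pos hM]
      have h1 := h (y0 / 2 - y0 / 2 * x) (by nlinarith [hx.2]) (by nlinarith [hx.1])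
      rw [one_div, inv_mul_le_iff₀ hM]
      linarith
    have h1 := Chebyshev.eval_iterate_derivative_le_of_forall_abs_le_one (k := 1) (x := 1) le_rfl
      hQdeg hbd
    simp only [Function.iterate_one] at h1
    have h2 := Chebyshev.derivative_T_eval_one (R := ℝ) (J : ℤ)
    rw [h2] at h1
    have h3 : (derivative Q).eval 1 = σ / M * ((derivative P).eval 0 * (-(y0 / 2))) := by
      have hLd : derivative L = C (-(y0 / 2)) := by
        rw [hL]; simp
      have hL1 : L.eval 1 = 0 := by
        rw [hL]; simp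
      rw [hQ, derivative_C_mul, derivative_comp, hLd, eval_C_mul, eval_mul, eval_comp, hL1, eval_C]
      ring
    rw [h3] at h1
    exact_mod_cast h1
  have k1 := key 1 (by simp)
  have k2 := key (-1) (by simp)
  rw [le_div_iff₀ hy]
  have e1 : (1 : ℝ) / M * ((derivative P).eval 0 * (-(y0 / 2))) =
      -((derivative P).eval 0 * y0) / (2 * M) := by
    field_simp
  have e2 : (-1 : ℝ) / M * ((derivative P).eval 0 * (-(y0 / 2))) =
      ((derivative P).eval 0 * y0) / (2 * M) := by
    field_simp
  rw [e1, div_le_iff₀ (by positivity)] at k1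
  rw [e2, div_le_iff₀ (by positivity)] at k2
  have : |(derivative P).eval 0| * y0 = |(derivative P).eval 0 * y0| := by
    rw [abs_mul, abs_of_pos hy]
  rw [this, abs_le]
  constructor <;> linarith

/-- Taylor coefficients at `1`. -/
lemma expand (d : ℕ) (c : ℕ → ℝ) (y : ℝ) :
    ∑ s ∈ range (d + 1), c s * (1 - y) ^ s =
      ∑ j ∈ range (d + 1), ((-1) ^ j * ∑ s ∈ range (d + 1), c s * (s.choose j : ℝ)) * y ^ j := by
  have h1 : ∀ s ∈ range (d + 1), c s * (1 - y) ^ s =
      ∑ j ∈ range (d + 1), c s * ((-1) ^ j * (s.choose j : ℝ) * y ^ j) := by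
    intro s hs
    rw [← mul_sum]
    congr 1
    have h2 : (1 - y) ^ s = (-y + 1) ^ s := by ring
    rw [h2, add_pow]
    rw [← Finset.sum_subset (range_subset_range.2 (mem_range.1 hs))]
    · refine sum_congr rfl fun j _ => ?_
      rw [one_pow, mul_one, neg_pow]
      ring
    · intro j _ hj
      have : s < j := by
        simp only [mem_range, not_lt] at hj
        omega
      rw [Nat.choose_eq_zero_of_lt this]
      simp
  rw [sum_congr rfl h1, sum_comm]
  refine sum_congr rfl fun j _ => ?_
  rw [mul_sum, sum_mul]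
  refine sum_congr rfl fun s _ => ?_
  ring

/-- The coefficient in `expand`. -/
noncomputable def bc (d : ℕ) (c : ℕ → ℝ) (j : ℕ) : ℝ :=
  (-1) ^ j * ∑ s ∈ range (d + 1), c s * (s.choose j : ℝ)

lemma abs_bc_le (d : ℕ) (c : ℕ → ℝ) {M : ℝ} (hM : ∑ s ∈ range (d + 1), |c s| ≤ M) (j : ℕ) :
    |bc d c j| ≤ M * ((d : ℝ) ^ j / (j.factorial : ℝ)) := by
  unfold bc
  rw [abs_mul, abs_pow, abs_neg, abs_one, one_pow, one_mul]
  have h2 : ((d.choose j : ℕ) : ℝ) ≤ (d : ℝ) ^ j / (j.factorial : ℝ) := Nat.choose_le_pow_div j d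
  have h0 : (0 : ℝ) ≤ M := le_trans (sum_nonneg fun s _ => abs_nonneg _) hM
  calc |∑ s ∈ range (d + 1), c s * (s.choose j : ℝ)|
      ≤ ∑ s ∈ range (d + 1), |c s * (s.choose j : ℝ)| := abs_sum_le_sum_abs _ _
    _ ≤ ∑ s ∈ range (d + 1), |c s| * (d.choose j : ℝ) := by
        refine sum_le_sum fun s hs => ?_
        rw [abs_mul, Nat.abs_cast]
        refine mul_le_mul_of_nonneg_left ?_ (abs_nonneg _)
        have : s ≤ d := by
          have := mem_range.1 hs
          omega
        exact_mod_cast Nat.choose_le_choose j this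
    _ = (∑ s ∈ range (d + 1), |c s|) * (d.choose j : ℝ) := by rw [sum_mul]
    _ ≤ M * (d.choose j : ℝ) := mul_le_mul_of_nonneg_right hM (by positivity)
    _ ≤ _ := mul_le_mul_of_nonneg_left h2 h0

lemma bc_one (d : ℕ) (c : ℕ → ℝ) : bc d c 1 = - ∑ s ∈ range (d + 1), (s : ℝ) * c s := by
  unfold bc
  simp only [Nat.choose_one_right, pow_one, neg_mul, one_mul]
  congr 1
  exact sum_congr rfl fun s _ => by ring

/-- The truncated Taylor polynomial. -/
noncomputable def tp (d : ℕ) (c : ℕ → ℝ) (J : ℕ) : ℝ[X] :=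
  ∑ j ∈ range (J + 1), C (bc d c j) * X ^ j

lemma tp_natDegree (d : ℕ) (c : ℕ → ℝ) (J : ℕ) : (tp d c J).natDegree ≤ J := by
  unfold tp
  apply Polynomial.natDegree_sum_le_of_forall_le
  intro j hj
  refine (natDegree_C_mul_X_pow_le _ _).trans ?_
  have := mem_range.1 hj
  omega

lemma tp_eval (d : ℕ) (c : ℕ → ℝ) (J : ℕ) (y : ℝ) :
    (tp d c J).eval y = ∑ j ∈ range (J + 1), bc d c j * y ^ j := by
  unfold tp
  simp [eval_finset_sum]

lemma tp_deriv (d : ℕ) (c : ℕ → ℝ) {J : ℕ} (hJ : 1 ≤ J) :
    (derivative (tp d c J)).eval 0 = bc d c 1 := by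
  have h1 : (derivative (tp d c J)).eval 0 = (derivative (tp d c J)).coeff 0 := by
    rw [coeff_zero_eq_eval_zero]
  rw [h1, coeff_derivative]
  unfold tp
  rw [finset_sum_coeff]
  simp only [coeff_C_mul, coeff_X_pow]
  rw [Finset.sum_eq_single 1]
  · simp
  · intro j _ hj
    rw [if_neg (by omega)]
    ring
  · intro h
    exfalso
    apply h
    simp only [mem_range]
    omega

/-- Main estimate for polynomials. -/
lemma poly_main (d : ℕ) (hd : 1 ≤ d) (c : ℕ → ℝ) {M Y ℓ : ℝ} (hY : 0 < Y) (hℓ : 0 ≤ ℓ)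
    (hM : ∑ s ∈ range (d + 1), |c s| ≤ M) (hMY : M ≤ Y * Real.exp ℓ)
    (hb : ∀ x, 0 ≤ x → x ≤ 1 → |∑ s ∈ range (d + 1), c s * x ^ s| ≤ Y) :
    |∑ s ∈ range (d + 1), (s : ℝ) * c s| ≤ 32 * d * Y * (ℓ + 2) := by
  set J : ℕ := ⌈ℓ⌉₊ + 1 with hJ
  have hJ1 : 1 ≤ J := by omega
  have hJℓ : ℓ ≤ J := by
    have := Nat.le_ceil ℓ
    rw [hJ]; push_cast; linarith
  have hJℓ' : (J : ℝ) ≤ ℓ + 2 := by
    have := Nat.ceil_lt_add_one hℓ
    rw [hJ]; push_cast; linarith
  have hd0 : (1 : ℝ) ≤ d := by exact_mod_cast hd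
  have hJ0 : (1 : ℝ) ≤ J := by exact_mod_cast hJ1
  have hM0 : (0 : ℝ) ≤ M := le_trans (sum_nonneg fun s _ => abs_nonneg _) hM
  have hgoal : |bc d c 1| ≤ 32 * d * Y * J := by
    by_cases hJd : d ≤ J
    · -- plain Markov
      have h1 := markov_end (tp_natDegree d c d) hY one_pos (fun y hy0 hy1 => by
        rw [tp_eval]
        have := expand d c y
        unfold bc
        rw [← this]
        exact hb (1 - y) (by linarith) (by linarith))
      rw [tp_deriv d c hd] at h1
      have h2 : (d : ℝ) ≤ J := by exact_mod_cast hJd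
      refine h1.trans ?_
      rw [div_one]
      have : (d : ℝ) ^ 2 ≤ d * J := by nlinarith
      nlinarith [mul_le_mul_of_nonneg_right this hY.le]
    · push Not at hJd
      have hJdr : (J : ℝ) < d := by exact_mod_cast hJd
      set y0 : ℝ := J / (8 * d) with hy0
      have hy0p : 0 < y0 := by positivity
      have hy01 : y0 ≤ 1 := by
        rw [hy0, div_le_one (by positivity)]
        nlinarith
      have hbd : ∀ y, 0 ≤ y → y ≤ y0 → |(tp d c J).eval y| ≤ 2 * Y := by
        intro y hy1 hy2
        have h1 := expand d c y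
        have h2 : ∑ j ∈ range (d + 1), bc d c j * y ^ j =
            ∑ j ∈ range (J + 1), bc d c j * y ^ j + ∑ j ∈ Ico (J + 1) (d + 1), bc d c j * y ^ j := by
          rw [Finset.sum_range_add_sum_Ico]
          omega
        have h3 : ∑ j ∈ range (d + 1), bc d c j * y ^ j = ∑ s ∈ range (d + 1), c s * (1 - y) ^ s := by
          rw [h1]; rfl
        have h4 : |∑ j ∈ Ico (J + 1) (d + 1), bc d c j * y ^ j| ≤ Y := by
          have h5 : ∀ j ∈ Ico (J + 1) (d + 1), |bc d c j * y ^ j| ≤
              M * Real.exp J * (1 / 8 : ℝ) ^ j := by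
            intro j _
            rw [abs_mul, abs_pow, abs_of_nonneg hy1]
            calc |bc d c j| * y ^ j ≤ (M * ((d : ℝ) ^ j / (j.factorial : ℝ))) * y0 ^ j := by
                  apply mul_le_mul (abs_bc_le d c hM j) (pow_le_pow_left₀ hy1 hy2 j) (by positivity)
                  positivity
              _ = M * ((J : ℝ) ^ j / (j.factorial : ℝ)) * (1 / 8 : ℝ) ^ j := by
                  rw [hy0, div_pow, mul_pow, div_pow, one_pow]
                  have : (d : ℝ) ^ j ≠ 0 := by positivity
                  field_simp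
              _ ≤ M * Real.exp J * (1 / 8 : ℝ) ^ j := by
                  have := Real.pow_div_factorial_le_exp (x := (J : ℝ)) (by positivity) j
                  gcongr
          have h6 : ∑ j ∈ Ico (J + 1) (d + 1), (1 / 8 : ℝ) ^ j ≤ (1 / 8 : ℝ) ^ J := by
            have h7 : ∀ N : ℕ, ∑ j ∈ Ico (J + 1) (J + 1 + N), (1 / 8 : ℝ) ^ j ≤
                (1 / 8 : ℝ) ^ J - (1 / 8 : ℝ) ^ (J + N) := by
              intro N
              induction N with
              | zero => simp
              | succ N ih =>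
                rw [← add_assoc, Finset.sum_Ico_succ_top (by omega)]
                have e1 : (1 / 8 : ℝ) ^ (J + (N + 1)) = (1 / 8 : ℝ) ^ (J + N) * (1 / 8) := by
                  rw [← pow_succ]; rfl
                have e2 : (1 / 8 : ℝ) ^ (J + 1 + N) = (1 / 8 : ℝ) ^ (J + N) * (1 / 8) := by
                  rw [← pow_succ]; congr 1; omega
                rw [e1, e2]
                have : (0 : ℝ) ≤ (1 / 8 : ℝ) ^ (J + N) := by positivity
                linarith
            have h8 := h7 (d - J)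
            have h9 : J + 1 + (d - J) = d + 1 := by omega
            rw [h9] at h8
            have : (0 : ℝ) ≤ (1 / 8 : ℝ) ^ (J + (d - J)) := by positivity
            linarith
          have h10 : Real.exp J * (1 / 8 : ℝ) ^ J ≤ Real.exp (-J) := by
            have e1 : Real.exp (J : ℝ) = Real.exp 1 ^ J := by
              rw [← Real.exp_nat_mul]; ring_nf
            have e2 : Real.exp (-(J : ℝ)) = (Real.exp 1)⁻¹ ^ J := by
              rw [Real.exp_neg, e1, inv_pow]
            rw [e2, e1, ← mul_pow]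
            apply pow_le_pow_left₀ (by positivity)
            have h11 : Real.exp 1 < 2.7182818286 := Real.exp_one_lt_d9
            have h12 : 0 < Real.exp 1 := Real.exp_pos 1
            rw [le_inv_comm₀ (by positivity) h12]
            rw [mul_one_div, inv_div, le_div_iff₀ h12]
            nlinarith
          calc |∑ j ∈ Ico (J + 1) (d + 1), bc d c j * y ^ j|
              ≤ ∑ j ∈ Ico (J + 1) (d + 1), |bc d c j * y ^ j| := abs_sum_le_sum_abs _ _
            _ ≤ ∑ j ∈ Ico (J + 1) (d + 1), M * Real.exp J * (1 / 8 : ℝ) ^ j := sum_le_sum h5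
            _ = M * Real.exp J * ∑ j ∈ Ico (J + 1) (d + 1), (1 / 8 : ℝ) ^ j := by rw [mul_sum]
            _ ≤ M * Real.exp J * (1 / 8 : ℝ) ^ J :=
                mul_le_mul_of_nonneg_left h6 (by positivity)
            _ = M * (Real.exp J * (1 / 8 : ℝ) ^ J) := by ring
            _ ≤ M * Real.exp (-J) := mul_le_mul_of_nonneg_left h10 hM0
            _ ≤ (Y * Real.exp ℓ) * Real.exp (-J) :=
                mul_le_mul_of_nonneg_right hMY (Real.exp_pos _).le
            _ = Y * Real.exp (ℓ - J) := by rw [mul_assoc, ← Real.exp_add]; ring_nf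
            _ ≤ Y * 1 := by
                apply mul_le_mul_of_nonneg_left _ hY.le
                rw [Real.exp_le_one_iff]
                linarith
            _ = Y := mul_one _
        rw [tp_eval]
        have h5 : ∑ j ∈ range (J + 1), bc d c j * y ^ j =
            ∑ s ∈ range (d + 1), c s * (1 - y) ^ s - ∑ j ∈ Ico (J + 1) (d + 1), bc d c j * y ^ j := by
          rw [← h3, h2]; ring
        rw [h5]
        have h6 := hb (1 - y) (by linarith) (by linarith)
        calc _ ≤ |∑ s ∈ range (d + 1), c s * (1 - y) ^ s| +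
              |∑ j ∈ Ico (J + 1) (d + 1), bc d c j * y ^ j| := abs_sub _ _
          _ ≤ Y + Y := add_le_add h6 h4
          _ = 2 * Y := by ring
      have h1 := markov_end (tp_natDegree d c J) (by positivity : 0 < 2 * Y) hy0p hbd
      rw [tp_deriv d c hJ1] at h1
      refine h1.trans (le_of_eq ?_)
      rw [hy0]
      field_simp
      ring
  have h1 : |∑ s ∈ range (d + 1), (s : ℝ) * c s| = |bc d c 1| := by
    rw [bc_one, abs_neg]
  rw [h1]
  refine hgoal.trans ?_
  apply mul_le_mul_of_nonneg_left hJℓ'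
  positivity

end Pool.Agent.Helper91.MB
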