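import Mathlib
import Pool.Agent.Helper54.MB.Cube
import Pool.Agent.Helper91.MB.Poly

/-!
The noise semigroup on the cube is contractive in bilinear form; the bilinear Markov estimate.
-/

open Finset

namespace Pool.Agent.Helper91.MB

variable {n : ℕ}

/-- The real Walsh character. -/
noncomputable def rch (S : Finset (Fin n)) (x : Fin n → Bool) : ℝ :=
  ∏ i ∈ S, (if x i then (1 : ℝ) else -1)

lemma ch_eq (S : Finset (Fin n)) (x : Fin n → Bool) :
    Helper54.MB.ch S x = ((rch S x : ℝ) : ℂ) := by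
  unfold Helper54.MB.ch rch
  rw [Complex.ofReal_prod]
  refine prod_congr rfl fun i _ => ?_
  cases x i <;> simp

/-- The function with Walsh coefficients `c`. -/
noncomputable def fn (c : Finset (Fin n) → ℝ) (x : Fin n → Bool) : ℝ := ∑ S, c S * rch S x

lemma parseval_real (c : Finset (Fin n) → ℝ) :
    ∑ x, (fn c x) ^ 2 = (2 : ℝ) ^ n * ∑ S, (c S) ^ 2 := by
  have h := Helper54.MB.parseval (fun S => ((c S : ℝ) : ℂ))
  have h1 : ∀ x : Fin n → Bool, ‖∑ S, ((c S : ℝ) : ℂ) * Helper54.MB.ch S x‖ ^ 2 = (fn c x) ^ 2 := by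
    intro x
    have : ∑ S, ((c S : ℝ) : ℂ) * Helper54.MB.ch S x = ((fn c x : ℝ) : ℂ) := by
      unfold fn
      rw [Complex.ofReal_sum]
      refine sum_congr rfl fun S _ => ?_
      rw [ch_eq]; push_cast; rfl
    rw [this, Complex.norm_real, Real.norm_eq_abs, sq_abs]
  simp only [h1, Complex.norm_real, Real.norm_eq_abs, sq_abs] at h
  exact h

lemma sum_rch_mul (S T : Finset (Fin n)) :
    ∑ x, rch S x * rch T x = if S = T then (2 : ℝ) ^ n else 0 := by
  have h := Helper54.MB.sum_ch_mul S T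
  simp only [ch_eq] at h
  split_ifs at h ⊢ with hST
  · exact_mod_cast h
  · exact_mod_cast h

/-- The noise kernel. -/
noncomputable def ker (ρ : ℝ) (x y : Fin n → Bool) : ℝ :=
  ∏ i, ((1 + ρ * ((if x i then (1 : ℝ) else -1) * (if y i then (1 : ℝ) else -1))) / 2)

lemma ker_nonneg {ρ : ℝ} (h0 : 0 ≤ ρ) (h1 : ρ ≤ 1) (x y : Fin n → Bool) : 0 ≤ ker ρ x y := by
  unfold ker
  apply prod_nonneg
  intro i _
  cases x i <;> cases y i <;> simp <;> linarith

lemma ker_symm (ρ : ℝ) (x y : Fin n → Bool) : ker ρ x y = ker ρ y x := by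
  unfold ker
  refine prod_congr rfl fun i _ => ?_
  ring

lemma ker_expand (ρ : ℝ) (x y : Fin n → Bool) :
    ker ρ x y = (1 / 2 : ℝ) ^ n * ∑ S : Finset (Fin n), ρ ^ S.card * (rch S x * rch S y) := by
  unfold ker
  rw [prod_div_distrib, Finset.prod_one_add]
  simp only [prod_const, card_univ, Fintype.card_fin]
  rw [powerset_univ, div_eq_inv_mul]
  congr 1
  · rw [one_div, inv_pow]
  · refine sum_congr rfl fun S _ => ?_
    unfold rch
    rw [prod_mul_distrib, prod_mul_distrib, prod_const]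

lemma ker_fn (ρ : ℝ) (c : Finset (Fin n) → ℝ) (x : Fin n → Bool) :
    ∑ y, ker ρ x y * fn c y = fn (fun S => ρ ^ S.card * c S) x := by
  simp only [ker_expand]
  have h1 : ∀ y : Fin n → Bool,
      (1 / 2 : ℝ) ^ n * (∑ S : Finset (Fin n), ρ ^ S.card * (rch S x * rch S y)) * fn c y =
      ∑ S : Finset (Fin n), ∑ T : Finset (Fin n),
        (1 / 2 : ℝ) ^ n * (ρ ^ S.card * rch S x * c T) * (rch S y * rch T y) := by
    intro y
    unfold fn
    rw [mul_assoc, sum_mul_sum, mul_sum]
    refine sum_congr rfl fun S _ => ?_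
    rw [mul_sum]
    refine sum_congr rfl fun T _ => ?_
    ring
  simp only [h1]
  rw [sum_comm]
  unfold fn
  refine sum_congr rfl fun S _ => ?_
  rw [sum_comm]
  have h2 : ∀ T : Finset (Fin n), ∑ y : Fin n → Bool,
      (1 / 2 : ℝ) ^ n * (ρ ^ S.card * rch S x * c T) * (rch S y * rch T y) =
      if S = T then (ρ ^ S.card * c T * rch S x) else 0 := by
    intro T
    rw [← mul_sum, sum_rch_mul]
    split_ifs
    · have : (1 / 2 : ℝ) ^ n * 2 ^ n = 1 := by
        rw [← mul_pow]; norm_num
      linear_combination (ρ ^ S.card * rch S x * c T) * this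
    · ring
  simp only [h2]
  rw [sum_ite_eq, if_pos (mem_univ S)]

lemma ker_sum (ρ : ℝ) (x : Fin n → Bool) : ∑ y, ker ρ x y = 1 := by
  have h := ker_fn ρ (fun S : Finset (Fin n) => if S = ∅ then (1 : ℝ) else 0) x
  have h1 : ∀ y : Fin n → Bool, fn (fun S : Finset (Fin n) => if S = ∅ then (1 : ℝ) else 0) y = 1 := by
    intro y
    unfold fn
    simp [rch]
  simp only [h1, mul_one] at h
  rw [h]
  unfold fn
  simp [rch]

/-- The `q`-norm with respect to the counting measure. -/
noncomputable def N {ι : Type*} [Fintype ι] (q : ℝ) (g : ι → ℝ) : ℝ := (∑ x, |g x| ^ q) ^ (1 / q)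

lemma N_nonneg {ι : Type*} [Fintype ι] (q : ℝ) (g : ι → ℝ) : 0 ≤ N q g := by
  unfold N
  positivity

lemma holder_kernel {ι : Type*} [Fintype ι] (K : ι → ι → ℝ) (hK : ∀ x y, 0 ≤ K x y)
    (h1 : ∀ x, ∑ y, K x y = 1) (h2 : ∀ y, ∑ x, K x y = 1) {q q' : ℝ} (hq : q.HolderConjugate q')
    (f h : ι → ℝ) :
    |∑ x, h x * ∑ y, K x y * f y| ≤ N q' h * N q f := by
  have hq0 : 0 < q := hq.pos
  have hq'0 : 0 < q' := hq.symm.pos
  have e1 : ∀ x y, K x y * |h x| * |f y| =
      (|h x| * (K x y) ^ (1 / q')) * (|f y| * (K x y) ^ (1 / q)) := by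
    intro x y
    have : (K x y) ^ (1 / q') * (K x y) ^ (1 / q) = K x y := by
      rw [← Real.rpow_add_of_nonneg (hK x y) (by positivity) (by positivity)]
      have : 1 / q' + 1 / q = 1 := by
        rw [one_div, one_div, add_comm]; exact hq.inv_add_inv_eq_one
      rw [this, Real.rpow_one]
    linear_combination (-(|h x| * |f y|)) * this
  calc |∑ x, h x * ∑ y, K x y * f y| ≤ ∑ x, |h x * ∑ y, K x y * f y| := abs_sum_le_sum_abs _ _
    _ ≤ ∑ x, ∑ y, K x y * |h x| * |f y| := by
        refine sum_le_sum fun x _ => ?_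
        rw [abs_mul]
        calc |h x| * |∑ y, K x y * f y| ≤ |h x| * ∑ y, |K x y * f y| :=
              mul_le_mul_of_nonneg_left (abs_sum_le_sum_abs _ _) (abs_nonneg _)
          _ = _ := by
              rw [mul_sum]
              refine sum_congr rfl fun y _ => ?_
              rw [abs_mul, abs_of_nonneg (hK x y)]
              ring
    _ = ∑ z : ι × ι, (|h z.1| * (K z.1 z.2) ^ (1 / q')) * (|f z.2| * (K z.1 z.2) ^ (1 / q)) := by
        rw [Fintype.sum_prod_type]
        exact sum_congr rfl fun x _ => sum_congr rfl fun y _ => e1 x y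
    _ ≤ (∑ z : ι × ι, |(|h z.1| * (K z.1 z.2) ^ (1 / q'))| ^ q') ^ (1 / q') *
          (∑ z : ι × ι, |(|f z.2| * (K z.1 z.2) ^ (1 / q))| ^ q) ^ (1 / q) :=
        Real.inner_le_Lp_mul_Lq univ _ _ hq.symm
    _ = N q' h * N q f := by
        unfold N
        congr 2
        · rw [Fintype.sum_prod_type]
          refine sum_congr rfl fun x _ => ?_
          have : ∀ y, |(|h x| * (K x y) ^ (1 / q'))| ^ q' = |h x| ^ q' * K x y := by
            intro y
            rw [abs_of_nonneg (by have := hK x y; positivity),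
              Real.mul_rpow (abs_nonneg _) (by have := hK x y; positivity),
              ← Real.rpow_mul (hK x y), one_div, inv_mul_cancel₀ hq'0.ne', Real.rpow_one]
          simp only [this]
          rw [← mul_sum, h1, mul_one]
        · rw [Fintype.sum_prod_type_right]
          refine sum_congr rfl fun y _ => ?_
          have : ∀ x, |(|f y| * (K x y) ^ (1 / q))| ^ q = |f y| ^ q * K x y := by
            intro x
            rw [abs_of_nonneg (by have := hK x y; positivity),
              Real.mul_rpow (abs_nonneg _) (by have := hK x y; positivity),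
              ← Real.rpow_mul (hK x y), one_div, inv_mul_cancel₀ hq0.ne', Real.rpow_one]
          simp only [this]
          rw [← mul_sum, h2, mul_one]

/-- The Laplacian. -/
noncomputable def lap (c : Finset (Fin n) → ℝ) (x : Fin n → Bool) : ℝ :=
  fn (fun S => (S.card : ℝ) * c S) x

lemma sum_card_fiber {d : ℕ} (c : Finset (Fin n) → ℝ) (hc : ∀ S : Finset (Fin n), d < S.card → c S = 0)
    (w : ℕ → ℝ) (x : Fin n → Bool) :
    fn (fun S => w S.card * c S) x =
      ∑ s ∈ range (d + 1), w s * ∑ S ∈ univ.filter (fun S : Finset (Fin n) => S.card = s), c S * rch S x := by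
  unfold fn
  have h1 : ∀ s, w s * ∑ S ∈ univ.filter (fun S : Finset (Fin n) => S.card = s), c S * rch S x =
      ∑ S : Finset (Fin n), if S.card = s then w S.card * c S * rch S x else 0 := by
    intro s
    rw [mul_sum, sum_filter]
    refine sum_congr rfl fun S _ => ?_
    split_ifs with h
    · rw [h]; ring
    · rfl
  simp only [h1]
  rw [sum_comm]
  refine sum_congr rfl fun S _ => ?_
  by_cases hS : d < S.card
  · rw [hc S hS]
    simp
  · rw [sum_ite_eq, if_pos]
    rw [mem_range]; omega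

/-- Bilinear Markov estimate. -/
theorem blt {d : ℕ} (hd : 1 ≤ d) (c : Finset (Fin n) → ℝ)
    (hc : ∀ S : Finset (Fin n), d < S.card → c S = 0) (h : (Fin n → Bool) → ℝ)
    {q q' : ℝ} (hq : q.HolderConjugate q') {Y ℓ : ℝ} (hY : 0 < Y) (hℓ : 0 ≤ ℓ)
    (hX : N q' h * N q (fn c) ≤ Y) (hR : N 2 h * N 2 (fn c) ≤ Y * Real.exp ℓ) :
    |∑ x, h x * lap c x| ≤ 32 * d * Y * (ℓ + 2) := by
  set a : ℕ → ℝ := fun s => ∑ x, h x *
    ∑ S ∈ univ.filter (fun S : Finset (Fin n) => S.card = s), c S * rch S x with ha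
  have hgen : ∀ w : ℕ → ℝ, ∑ x, h x * fn (fun S => w S.card * c S) x =
      ∑ s ∈ range (d + 1), w s * a s := by
    intro w
    simp only [sum_card_fiber c hc w]
    simp only [ha, mul_sum]
    rw [sum_comm]
    refine sum_congr rfl fun s _ => sum_congr rfl fun x _ => sum_congr rfl fun S _ => ?_
    ring
  have h1 : ∑ x, h x * lap c x = ∑ s ∈ range (d + 1), (s : ℝ) * a s := hgen (fun s => (s : ℝ))
  rw [h1]
  refine poly_main d hd a (M := N 2 h * N 2 (fn c)) hY hℓ ?_ hR ?_
  · -- sum of the coefficients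
    set ε : ℕ → ℝ := fun s => if 0 ≤ a s then 1 else -1 with hε
    have h2 : ∑ s ∈ range (d + 1), |a s| = ∑ s ∈ range (d + 1), ε s * a s := by
      refine sum_congr rfl fun s _ => ?_
      simp only [hε]
      split_ifs with h3
      · rw [abs_of_nonneg h3, one_mul]
      · rw [abs_of_neg (not_le.1 h3)]; ring
    rw [h2, ← hgen ε]
    have h3 : ∑ x, (fn (fun S : Finset (Fin n) => ε S.card * c S) x) ^ 2 = ∑ x, (fn c x) ^ 2 := by
      rw [parseval_real, parseval_real]
      congr 1
      refine sum_congr rfl fun S _ => ?_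
      simp only [hε]
      split_ifs <;> ring
    have h4 : ∀ g : (Fin n → Bool) → ℝ, N 2 g = Real.sqrt (∑ x, (g x) ^ 2) := by
      intro g
      unfold N
      rw [Real.sqrt_eq_rpow]
      congr 1
      refine sum_congr rfl fun x _ => ?_
      rw [Real.rpow_two, sq_abs]
    rw [h4, h4, ← h3, ← Real.sqrt_mul (sum_nonneg fun x _ => sq_nonneg _)]
    apply Real.le_sqrt_of_sq_le
    exact sum_mul_sq_le_sq_mul_sq _ _ _
  · intro x hx0 hx1
    have h2 : ∑ s ∈ range (d + 1), a s * x ^ s =
        ∑ z, h z * ∑ y, ker x z y * fn c y := by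
      simp only [ker_fn]
      rw [hgen (fun s => x ^ s)]
      exact sum_congr rfl fun s _ => by ring
    rw [h2]
    refine (holder_kernel (ker x) (ker_nonneg hx0 hx1) (ker_sum x) (fun y => ?_) hq (fn c) h).trans hX
    have := ker_sum x y
    rw [← this]
    exact sum_congr rfl fun z _ => ker_symm _ _ _

end Pool.Agent.Helper91.MB
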