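import Mathlib
import Pool.Agent.Helper91.MB.Semi

/-!
Elementary facts on `l^q` norms: duality, Lyapunov's inequality, norms of functions with
values in a dyadic range.
-/

open Finset

namespace Pool.Agent.Helper91.MB

variable {ι : Type*} [Fintype ι]

lemma exists_dual (g : ι → ℝ) {p r : ℝ} (hpr : p.HolderConjugate r) :
    ∃ h : ι → ℝ, ∑ x, |h x| ^ r ≤ 1 ∧ ∑ x, h x * g x = N p g := by
  have h1 := (NNReal.isGreatest_Lp univ (fun x => ‖g x‖₊) hpr).1
  obtain ⟨u, hu, hu2⟩ := h1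
  simp only [Set.mem_ofPred_eq] at hu
  refine ⟨fun x => (if 0 ≤ g x then 1 else -1) * (u x : ℝ), ?_, ?_⟩
  · have h2 : ∀ x, |(if 0 ≤ g x then (1 : ℝ) else -1) * (u x : ℝ)| ^ r = ((u x ^ r : NNReal) : ℝ) := by
      intro x
      have : |(if 0 ≤ g x then (1 : ℝ) else -1)| = 1 := by split_ifs <;> simp
      rw [abs_mul, this, one_mul, abs_of_nonneg (u x).coe_nonneg, NNReal.coe_rpow]
    simp only [h2]
    exact_mod_cast hu
  · have h2 : ∀ x, (if 0 ≤ g x then (1 : ℝ) else -1) * (u x : ℝ) * g x =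
        ((‖g x‖₊ * u x : NNReal) : ℝ) := by
      intro x
      rw [NNReal.coe_mul, coe_nnnorm, Real.norm_eq_abs]
      split_ifs with h3
      · rw [abs_of_nonneg h3]; ring
      · rw [abs_of_neg (not_le.1 h3)]; ring
    simp only [h2]
    rw [← NNReal.coe_sum]
    have h3 := congrArg (fun z : NNReal => (z : ℝ)) hu2
    simp only at h3
    rw [h3]
    unfold N
    push_cast
    simp [Real.norm_eq_abs]

lemma sum_rpow_pos {q : ℝ} {f : ι → ℝ} (hf : ∃ x, f x ≠ 0) : 0 < ∑ x, |f x| ^ q := by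
  obtain ⟨x, hx⟩ := hf
  have h1 : 0 < |f x| ^ q := Real.rpow_pos_of_pos (abs_pos.2 hx) _
  exact lt_of_lt_of_le h1 (single_le_sum (f := fun x => |f x| ^ q)
    (fun y _ => by positivity) (mem_univ x))

lemma N_pos {q : ℝ} {f : ι → ℝ} (hf : ∃ x, f x ≠ 0) : 0 < N q f := by
  unfold N
  exact Real.rpow_pos_of_pos (sum_rpow_pos hf) _

/-- Lyapunov's inequality. -/
lemma lyapunov {f : ι → ℝ} (hf : ∃ x, f x ≠ 0) {p0 p1 q : ℝ} (h0 : 0 < p0) (h01 : p0 < p1)
    (hq0 : p0 ≤ q) (hq1 : q ≤ p1) :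
    Real.log (∑ x, |f x| ^ q) ≤ (p1 - q) / (p1 - p0) * Real.log (∑ x, |f x| ^ p0) +
      (q - p0) / (p1 - p0) * Real.log (∑ x, |f x| ^ p1) := by
  set M0 := ∑ x, |f x| ^ p0 with hM0
  set M1 := ∑ x, |f x| ^ p1 with hM1
  have hM0p : 0 < M0 := sum_rpow_pos hf
  have hM1p : 0 < M1 := sum_rpow_pos hf
  have hd : 0 < p1 - p0 := by linarith
  set w0 := (p1 - q) / (p1 - p0) with hw0
  set w1 := (q - p0) / (p1 - p0) with hw1
  have hw0n : 0 ≤ w0 := div_nonneg (by linarith) hd.le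
  have hw1n : 0 ≤ w1 := div_nonneg (by linarith) hd.le
  have hw : w0 + w1 = 1 := by
    rw [hw0, hw1, ← add_div]
    rw [div_eq_one_iff_eq hd.ne']; ring
  have hwq : w0 * p0 + w1 * p1 = q := by
    rw [hw0, hw1]
    field_simp
    ring
  have hpt : ∀ x, |f x| ^ q ≤ M0 ^ w0 * M1 ^ w1 * (w0 * (|f x| ^ p0 / M0) + w1 * (|f x| ^ p1 / M1)) := by
    intro x
    have h1 := Real.geom_mean_le_arith_mean2_weighted hw0n hw1n
      (show 0 ≤ |f x| ^ p0 / M0 by positivity) (show 0 ≤ |f x| ^ p1 / M1 by positivity) hw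
    have h2 : |f x| ^ q = M0 ^ w0 * M1 ^ w1 * ((|f x| ^ p0 / M0) ^ w0 * (|f x| ^ p1 / M1) ^ w1) := by
      rw [Real.div_rpow (by positivity) hM0p.le, Real.div_rpow (by positivity) hM1p.le,
        ← Real.rpow_mul (abs_nonneg _), ← Real.rpow_mul (abs_nonneg _)]
      have h3 : |f x| ^ (p0 * w0) * |f x| ^ (p1 * w1) = |f x| ^ q := by
        rw [← Real.rpow_add_of_nonneg (abs_nonneg _) (by positivity) (mul_nonneg (by linarith) hw1n)]
        congr 1
        linarith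
      have h4 : M0 ^ w0 ≠ 0 := (Real.rpow_pos_of_pos hM0p _).ne'
      have h5 : M1 ^ w1 ≠ 0 := (Real.rpow_pos_of_pos hM1p _).ne'
      field_simp
      exact h3.symm
    rw [h2]
    exact mul_le_mul_of_nonneg_left h1 (by positivity)
  have hsum : ∑ x, |f x| ^ q ≤ M0 ^ w0 * M1 ^ w1 := by
    calc ∑ x, |f x| ^ q ≤ ∑ x, M0 ^ w0 * M1 ^ w1 * (w0 * (|f x| ^ p0 / M0) + w1 * (|f x| ^ p1 / M1)) :=
          sum_le_sum fun x _ => hpt x
      _ = M0 ^ w0 * M1 ^ w1 * (w0 * (M0 / M0) + w1 * (M1 / M1)) := by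
          rw [← mul_sum, sum_add_distrib, ← mul_sum, ← mul_sum, ← sum_div, ← sum_div]
      _ = M0 ^ w0 * M1 ^ w1 := by
          rw [div_self hM0p.ne', div_self hM1p.ne', mul_one, mul_one, hw, mul_one]
  calc Real.log (∑ x, |f x| ^ q) ≤ Real.log (M0 ^ w0 * M1 ^ w1) :=
        Real.log_le_log (sum_rpow_pos hf) hsum
    _ = w0 * Real.log M0 + w1 * Real.log M1 := by
        rw [Real.log_mul (Real.rpow_pos_of_pos hM0p _).ne' (Real.rpow_pos_of_pos hM1p _).ne',
          Real.log_rpow hM0p, Real.log_rpow hM1p]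

lemma log_N {q : ℝ} {f : ι → ℝ} (hf : ∃ x, f x ≠ 0) :
    Real.log (N q f) = (1 / q) * Real.log (∑ x, |f x| ^ q) := by
  unfold N
  rw [Real.log_rpow (sum_rpow_pos hf)]

/-- Lyapunov's inequality for the norms, in the form `log ‖f‖_q ≤ (1-θ) log ‖f‖_{p0} + θ log ‖f‖_{p1}`. -/
lemma lyapunov_N {f : ι → ℝ} (hf : ∃ x, f x ≠ 0) {p0 p1 q : ℝ} (h0 : 0 < p0) (h01 : p0 < p1)
    (hq0 : p0 ≤ q) (hq1 : q ≤ p1) :
    (1 / p0 - 1 / p1) * Real.log (N q f) ≤ (1 / q - 1 / p1) * Real.log (N p0 f) +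
      (1 / p0 - 1 / q) * Real.log (N p1 f) := by
  have h := lyapunov hf h0 h01 hq0 hq1
  rw [log_N hf, log_N hf, log_N hf]
  have hq : 0 < q := by linarith
  have hp1 : 0 < p1 := by linarith
  have hd : 0 < p1 - p0 := by linarith
  have hk : 0 < (p1 - p0) / (p0 * p1 * q) := by positivity
  have h2 := mul_le_mul_of_nonneg_left h hk.le
  have e1 : (p1 - p0) / (p0 * p1 * q) * Real.log (∑ x, |f x| ^ q) =
      (1 / p0 - 1 / p1) * (1 / q * Real.log (∑ x, |f x| ^ q)) := by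
    field_simp
  have e2 : (p1 - p0) / (p0 * p1 * q) * ((p1 - q) / (p1 - p0) * Real.log (∑ x, |f x| ^ p0) +
      (q - p0) / (p1 - p0) * Real.log (∑ x, |f x| ^ p1)) =
      (1 / q - 1 / p1) * (1 / p0 * Real.log (∑ x, |f x| ^ p0)) +
      (1 / p0 - 1 / q) * (1 / p1 * Real.log (∑ x, |f x| ^ p1)) := by
    field_simp
  rw [e1, e2] at h2
  exact h2

/-- A function with values in a range `[exp τ₀, exp τ₁]` and `∑ |u|^r ≤ 1`. -/
lemma N_range {u : ι → ℝ} {r q τ D : ℝ} (hq : 0 < q) (hD : 0 ≤ D)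
    (hu : ∀ x, u x = 0 ∨ (Real.exp (τ - D) ≤ |u x| ∧ |u x| ≤ Real.exp (τ + D)))
    (h1 : ∑ x, |u x| ^ r ≤ 1) :
    N q u ≤ Real.exp ((1 - r / q) * τ + |1 - r / q| * D) := by
  have hpt : ∀ x, |u x| ^ q ≤ Real.exp ((q - r) * τ + |q - r| * D) * |u x| ^ r := by
    intro x
    rcases hu x with h | ⟨h2, h3⟩
    · rw [h, abs_zero, Real.zero_rpow hq.ne']
      positivity
    · have hpos : 0 < |u x| := lt_of_lt_of_le (Real.exp_pos _) h2
      have h4 : |u x| ^ q = |u x| ^ (q - r) * |u x| ^ r := by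
        rw [← Real.rpow_add hpos]; congr 1; ring
      rw [h4]
      apply mul_le_mul_of_nonneg_right _ (by positivity)
      rw [Real.rpow_def_of_pos hpos]
      apply Real.exp_le_exp.2
      have h5 : τ - D ≤ Real.log |u x| := (Real.le_log_iff_exp_le hpos).2 h2
      have h6 : Real.log |u x| ≤ τ + D := (Real.log_le_iff_le_exp hpos).2 h3
      have h7 : |Real.log |u x| - τ| ≤ D := by
        rw [abs_le]; constructor <;> linarith
      have h8 : (Real.log |u x| - τ) * (q - r) ≤ |q - r| * D := by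
        calc (Real.log |u x| - τ) * (q - r) ≤ |(Real.log |u x| - τ) * (q - r)| := le_abs_self _
          _ = |Real.log |u x| - τ| * |q - r| := abs_mul _ _
          _ ≤ D * |q - r| := mul_le_mul_of_nonneg_right h7 (abs_nonneg _)
          _ = _ := by ring
      linarith
  unfold N
  have h2 : ∑ x, |u x| ^ q ≤ Real.exp ((q - r) * τ + |q - r| * D) := by
    calc ∑ x, |u x| ^ q ≤ ∑ x, Real.exp ((q - r) * τ + |q - r| * D) * |u x| ^ r :=
          sum_le_sum fun x _ => hpt x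
      _ = Real.exp ((q - r) * τ + |q - r| * D) * ∑ x, |u x| ^ r := by rw [mul_sum]
      _ ≤ Real.exp ((q - r) * τ + |q - r| * D) * 1 :=
          mul_le_mul_of_nonneg_left h1 (Real.exp_pos _).le
      _ = _ := mul_one _
  calc (∑ x, |u x| ^ q) ^ (1 / q) ≤ (Real.exp ((q - r) * τ + |q - r| * D)) ^ (1 / q) :=
        Real.rpow_le_rpow (sum_nonneg fun x _ => by positivity) h2 (by positivity)
    _ = Real.exp ((1 - r / q) * τ + |1 - r / q| * D) := by
        rw [← Real.exp_mul]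
        congr 1
        have e1 : |1 - r / q| = |q - r| / q := by
          have : 1 - r / q = (q - r) / q := by field_simp
          rw [this, abs_div, abs_of_pos hq]
        rw [e1]
        field_simp

end Pool.Agent.Helper91.MB
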