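import Mathlib
import Pool.Agent.Helper91.MB.Norms

/-!
The contribution of one piece of the test function.
-/

open Finset

namespace Pool.Agent.Helper91.MB

variable {n : ℕ}

/-- One piece `exp (m+j) ≤ |u| ≤ exp (m+j+1)` of the test function, estimated with exponent `q`. -/
lemma piece {d : ℕ} (hd : 1 ≤ d) (c : Finset (Fin n) → ℝ)
    (hc : ∀ S : Finset (Fin n), d < S.card → c S = 0) (hf : ∃ x, fn c x ≠ 0)
    {p r q q' : ℝ} (hpr : p.HolderConjugate r) (hqq : q.HolderConjugate q')
    {m g τ : ℝ} (hg : r * (1 / q - 1 / p) * m + Real.log (N q (fn c)) = g)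
    (he : Real.log (N 2 (fn c)) ≤ r * (1 / q - 1 / 2) * m + Real.log (N q (fn c)))
    (u : (Fin n → Bool) → ℝ)
    (hu : ∀ x, u x = 0 ∨ (Real.exp (m + τ - 1) ≤ |u x| ∧ |u x| ≤ Real.exp (m + τ + 1)))
    (h1 : ∑ x, |u x| ^ r ≤ 1) :
    |∑ x, u x * lap c x| ≤
      32 * d * Real.exp (g + (1 + r) + r * (1 / q - 1 / p) * τ) * (r * |τ| + 2) := by
  have hr : 1 < r := hpr.symm.lt
  have hr0 : 0 < r := by linarith
  have hp0 : 0 < p := hpr.pos
  have hq0 : 0 < q := hqq.pos
  have hq1 : 1 < q := hqq.lt
  have hq'1 : 1 < q' := hqq.symm.lt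
  have hq'0 : 0 < q' := by linarith
  have hP : r * (1 - 1 / p) = 1 := by
    have := hpr.inv_add_inv_eq_one
    have h2 : 1 - 1 / p = r⁻¹ := by rw [one_div]; linarith
    rw [h2, mul_inv_cancel₀ hr0.ne']
  have hQ : 1 / q' = 1 - 1 / q := by
    have := hqq.inv_add_inv_eq_one
    rw [one_div, one_div]; linarith
  have hQ1 : 1 / q ≤ 1 := by
    rw [div_le_one hq0]; exact hq1.le
  have hQ0 : 0 < 1 / q := by positivity
  have e1 : 1 - r / q' = r * (1 / q - 1 / p) := by
    have : r / q' = r * (1 / q') := by ring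
    rw [this, hQ]
    linear_combination -hP
  have e2 : 1 - r / 2 = r * (1 / 2 - 1 / p) := by
    linear_combination -hP
  have hP0 : 0 < 1 / p := by positivity
  have hP1 : 1 / p < 1 := by
    rw [div_lt_one hp0]; exact hpr.lt
  have k1 : |1 - r / q'| ≤ 1 + r := by
    have h2 : 0 < r / q' := by positivity
    have h3 : r / q' ≤ r := by
      rw [div_le_iff₀ hq'0]; nlinarith
    rw [abs_le]; constructor <;> linarith
  have k2 : |1 - r / 2| ≤ 1 + r := by
    rw [abs_le]; constructor <;> linarith
  have n1 := N_range (q := q') (τ := m + τ) (D := 1) hq'0 zero_le_one hu h1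
  have n2 := N_range (q := 2) (τ := m + τ) (D := 1) two_pos zero_le_one hu h1
  have hFq : 0 < N q (fn c) := N_pos hf
  have hF2 : 0 < N 2 (fn c) := N_pos hf
  refine blt hd c hc u hqq (Real.exp_pos _) (by positivity) ?_ ?_
  · calc N q' u * N q (fn c) ≤
        Real.exp ((1 - r / q') * (m + τ) + |1 - r / q'| * 1) * Real.exp (Real.log (N q (fn c))) := by
          rw [Real.exp_log hFq]
          exact mul_le_mul_of_nonneg_right n1 hFq.le
      _ ≤ _ := by
          rw [← Real.exp_add]
          apply Real.exp_le_exp.2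
          rw [e1, ← hg]
          rw [e1] at k1
          linarith
  · calc N 2 u * N 2 (fn c) ≤
        Real.exp ((1 - r / 2) * (m + τ) + |1 - r / 2| * 1) * Real.exp (Real.log (N 2 (fn c))) := by
          rw [Real.exp_log hF2]
          exact mul_le_mul_of_nonneg_right n2 hF2.le
      _ ≤ _ := by
          rw [← Real.exp_add, ← Real.exp_add]
          apply Real.exp_le_exp.2
          rw [e2, ← hg]
          rw [e2] at k2
          have h3 : r * (1 / 2 - 1 / q) * τ ≤ r * |τ| := by
            have h4 : |r * (1 / 2 - 1 / q) * τ| ≤ r * |τ| := by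
              rw [abs_mul, abs_mul, abs_of_pos hr0]
              have h5 : |1 / 2 - 1 / q| ≤ 1 := by
                rw [abs_le]; constructor <;> linarith
              calc r * |1 / 2 - 1 / q| * |τ| ≤ r * 1 * |τ| := by
                    apply mul_le_mul_of_nonneg_right _ (abs_nonneg _)
                    exact mul_le_mul_of_nonneg_left h5 hr0.le
                _ = _ := by ring
            exact (le_abs_self _).trans h4
          linarith

/-- The middle part of the test function. -/
lemma middle {d : ℕ} (hd : 1 ≤ d) (c : Finset (Fin n) → ℝ)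
    (hc : ∀ S : Finset (Fin n), d < S.card → c S = 0) (hf : ∃ x, fn c x ≠ 0)
    {p r : ℝ} (hpr : p.HolderConjugate r)
    {m g D : ℝ} (hD : 0 ≤ D)
    (hg : r * (1 / 2 - 1 / p) * m + Real.log (N 2 (fn c)) ≤ g)
    (hΛ : 0 ≤ g - Real.log (N p (fn c)))
    (u : (Fin n → Bool) → ℝ)
    (hu : ∀ x, u x = 0 ∨ (Real.exp (m - D) ≤ |u x| ∧ |u x| ≤ Real.exp (m + D)))
    (h1 : ∑ x, |u x| ^ r ≤ 1) :
    |∑ x, u x * lap c x| ≤
      32 * d * N p (fn c) * ((g - Real.log (N p (fn c)) + (1 + r) * D) + 2) := by
  have hr : 1 < r := hpr.symm.lt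
  have hr0 : 0 < r := by linarith
  have hp0 : 0 < p := hpr.pos
  have hP : r * (1 - 1 / p) = 1 := by
    have := hpr.inv_add_inv_eq_one
    have h2 : 1 - 1 / p = r⁻¹ := by rw [one_div]; linarith
    rw [h2, mul_inv_cancel₀ hr0.ne']
  have e2 : 1 - r / 2 = r * (1 / 2 - 1 / p) := by
    linear_combination -hP
  have k2 : |1 - r / 2| ≤ 1 + r := by
    rw [abs_le]; constructor <;> linarith
  have n2 := N_range (q := 2) (τ := m) (D := D) two_pos hD hu h1
  have hF2 : 0 < N 2 (fn c) := N_pos hf
  have hFp : 0 < N p (fn c) := N_pos hf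
  refine blt hd c hc u hpr hFp (by positivity) ?_ ?_
  · have h2 : N r u ≤ 1 := by
      unfold N
      exact Real.rpow_le_one (sum_nonneg fun x _ => by positivity) h1 (by positivity)
    calc N r u * N p (fn c) ≤ 1 * N p (fn c) := mul_le_mul_of_nonneg_right h2 hFp.le
      _ = _ := one_mul _
  · calc N 2 u * N 2 (fn c) ≤
        Real.exp ((1 - r / 2) * m + |1 - r / 2| * D) * Real.exp (Real.log (N 2 (fn c))) := by
          rw [Real.exp_log hF2]
          exact mul_le_mul_of_nonneg_right n2 hF2.le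
      _ ≤ Real.exp (Real.log (N p (fn c))) *
            Real.exp (g - Real.log (N p (fn c)) + (1 + r) * D) := by
          rw [← Real.exp_add, ← Real.exp_add]
          apply Real.exp_le_exp.2
          have h3 : |1 - r / 2| * D ≤ (1 + r) * D := mul_le_mul_of_nonneg_right k2 hD
          rw [e2] at h3 ⊢
          linarith
      _ = _ := by rw [Real.exp_log hFp]

end Pool.Agent.Helper91.MB
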