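import Mathlib
import Pool.Agent.Helper91.MB.Pieces

/-!
Assembly: `‖Δf‖_p ≤ C d (1 + log Γ) ‖f‖_p` with `Γ` the Lyapunov ratio of `f`.
-/

open Finset

namespace Pool.Agent.Helper91.MB

/-- The weight of the piece number `j`. -/
noncomputable def wt (κ r : ℝ) (j : ℤ) : ℝ := Real.exp (-(κ / 2) * |(j : ℝ)|) * (r * |(j : ℝ)| + 2)

lemma wt_nonneg {κ r : ℝ} (hr : 0 < r) (j : ℤ) : 0 ≤ wt κ r j := by
  unfold wt
  positivity

lemma summable_wt {κ r : ℝ} (hκ : 0 < κ) : Summable (wt κ r) := by
  have h0 : Summable (fun k : ℕ => Real.exp (-(κ / 2) * (k : ℝ)) * (r * (k : ℝ) + 2)) := by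
    have hρ : ‖Real.exp (-(κ / 2))‖ < 1 := by
      rw [Real.norm_eq_abs, abs_of_pos (Real.exp_pos _), Real.exp_lt_one_iff]
      linarith
    have h1 := (summable_pow_mul_geometric_of_norm_lt_one 1 hρ).mul_left r
    have h2 := (summable_geometric_of_norm_lt_one hρ).mul_left 2
    refine (h1.add h2).congr fun k => ?_
    have : Real.exp (-(κ / 2) * (k : ℝ)) = Real.exp (-(κ / 2)) ^ k := by
      rw [← Real.exp_nat_mul]; ring_nf
    rw [this]
    ring
  rw [summable_int_iff_summable_nat_and_neg]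
  constructor
  · refine h0.congr fun k => ?_
    unfold wt
    simp
  · refine h0.congr fun k => ?_
    unfold wt
    simp

/-- The logarithm of the Lyapunov ratio. -/
noncomputable def Lam {ι : Type*} [Fintype ι] (p0 p p1 : ℝ) (f : ι → ℝ) : ℝ :=
  ((1 / p - 1 / p1) * Real.log (N p0 f) + (1 / p0 - 1 / p) * Real.log (N p1 f)) / (1 / p0 - 1 / p1) -
    Real.log (N p f)

lemma Lam_nonneg {ι : Type*} [Fintype ι] {p0 p p1 : ℝ} (h0 : 0 < p0) (h1 : p0 < p) (h2 : p < p1)
    {f : ι → ℝ} (hf : ∃ x, f x ≠ 0) : 0 ≤ Lam p0 p p1 f := by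
  have h := lyapunov_N hf h0 (h1.trans h2) h1.le h2.le
  have hs : 0 < 1 / p0 - 1 / p1 := by
    have := one_div_lt_one_div_of_lt h0 (h1.trans h2)
    linarith
  unfold Lam
  rw [sub_nonneg, le_div_iff₀ hs]
  linarith

lemma restrict_le {ι : Type*} [Fintype ι] {r : ℝ} (hr : 0 < r) (h : ι → ℝ) (P : ι → Prop)
    [DecidablePred P] (h1 : ∑ x, |h x| ^ r ≤ 1) :
    ∑ x, |(if P x then h x else 0)| ^ r ≤ 1 := by
  refine le_trans (sum_le_sum fun x _ => ?_) h1
  split_ifs
  · exact le_rfl
  · rw [abs_zero, Real.zero_rpow hr.ne']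
    positivity

theorem core {p0 p p1 : ℝ} (h1 : 1 < p0) (h2 : p0 < p) (h3 : p < p1) (h4 : p0 ≤ 2) (h5 : 2 ≤ p1) :
    ∃ C : ℝ, 0 < C ∧ ∀ n d : ℕ, 1 ≤ d → ∀ c : Finset (Fin n) → ℝ,
      (∀ S : Finset (Fin n), d < S.card → c S = 0) → (∃ x, fn c x ≠ 0) →
      N p (lap c) ≤ C * d * (1 + Lam p0 p p1 (fn c)) * N p (fn c) := by
  have hp : 1 < p := h1.trans h2
  have hp1 : 1 < p1 := hp.trans h3
  have hp00 : 0 < p0 := by linarith
  have hpp : 0 < p := by linarith
  have hp10 : 0 < p1 := by linarith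
  set r := Real.conjExponent p with hrdef
  have hpr : p.HolderConjugate r := Real.HolderConjugate.conjExponent hp
  have hq0 : p0.HolderConjugate (Real.conjExponent p0) := Real.HolderConjugate.conjExponent h1
  have hq1 : p1.HolderConjugate (Real.conjExponent p1) := Real.HolderConjugate.conjExponent hp1
  have hr : 1 < r := hpr.symm.lt
  have hr0 : 0 < r := by linarith
  have i0 : 1 / p < 1 / p0 := one_div_lt_one_div_of_lt hp00 h2
  have i1 : 1 / p1 < 1 / p := one_div_lt_one_div_of_lt hpp h3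
  set s := 1 / p0 - 1 / p1 with hs
  have hs0 : 0 < s := by linarith
  set κ := min (r * (1 / p0 - 1 / p)) (r * (1 / p - 1 / p1)) with hκ
  have hκ0 : 0 < κ := by
    rw [hκ, lt_min_iff]
    constructor
    · exact mul_pos hr0 (by linarith)
    · exact mul_pos hr0 (by linarith)
  set W := ∑' j : ℤ, wt κ r j with hW
  have hW0 : 0 ≤ W := tsum_nonneg fun j => wt_nonneg hr0 j
  set C := 32 * ((1 + 2 * (1 + r) / κ) + (1 + r + 2 + Real.exp (1 + r) * W)) with hC
  refine ⟨C, by positivity, ?_⟩
  intro n d hd c hc hf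
  set F := N p (fn c) with hF
  have hFpos : 0 < F := N_pos hf
  set a := Real.log (N p0 (fn c)) with ha
  set b := Real.log (N p1 (fn c)) with hb
  set Λ := Lam p0 p p1 (fn c) with hΛ
  have hΛ0 : 0 ≤ Λ := Lam_nonneg hp00 h2 h3 hf
  set m := (b - a) / (r * s) with hm
  set g := ((1 / p - 1 / p1) * a + (1 / p0 - 1 / p) * b) / s with hg
  have hgΛ : g - Real.log F = Λ := rfl
  have hrm : r * m = (b - a) / s := by
    rw [hm]; field_simp
  have hL2 := lyapunov_N hf hp00 (h2.trans h3) h4 h5
  -- the identities for the exponents p0, p1, 2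
  have g1 : r * (1 / p1 - 1 / p) * m + b = g := by
    have : r * (1 / p1 - 1 / p) * m = (1 / p1 - 1 / p) * ((b - a) / s) := by
      rw [← hrm]; ring
    rw [this, hg, eq_div_iff hs0.ne']
    have e : ((1 / p1 - 1 / p) * ((b - a) / s) + b) * s = (1 / p1 - 1 / p) * (b - a) + b * s := by
      field_simp
    rw [e, hs]; ring
  have g0 : r * (1 / p0 - 1 / p) * m + a = g := by
    have : r * (1 / p0 - 1 / p) * m = (1 / p0 - 1 / p) * ((b - a) / s) := by
      rw [← hrm]; ring
    rw [this, hg, eq_div_iff hs0.ne']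
    have e : ((1 / p0 - 1 / p) * ((b - a) / s) + a) * s = (1 / p0 - 1 / p) * (b - a) + a * s := by
      field_simp
    rw [e, hs]; ring
  have he1 : Real.log (N 2 (fn c)) ≤ r * (1 / p1 - 1 / 2) * m + b := by
    have : r * (1 / p1 - 1 / 2) * m = (1 / p1 - 1 / 2) * ((b - a) / s) := by
      rw [← hrm]; ring
    rw [this]
    have e : (1 / p1 - 1 / 2) * ((b - a) / s) + b = ((1 / p1 - 1 / 2) * (b - a) + b * s) / s := by
      field_simp
    rw [e, le_div_iff₀ hs0, hs]
    linarith
  have he0 : Real.log (N 2 (fn c)) ≤ r * (1 / p0 - 1 / 2) * m + a := by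
    have : r * (1 / p0 - 1 / 2) * m = (1 / p0 - 1 / 2) * ((b - a) / s) := by
      rw [← hrm]; ring
    rw [this]
    have e : (1 / p0 - 1 / 2) * ((b - a) / s) + a = ((1 / p0 - 1 / 2) * (b - a) + a * s) / s := by
      field_simp
    rw [e, le_div_iff₀ hs0, hs]
    linarith
  have hem : r * (1 / 2 - 1 / p) * m + Real.log (N 2 (fn c)) ≤ g := by
    rw [← g0]
    linarith
  obtain ⟨h, hh1, hh2⟩ := exists_dual (lap c) hpr
  rw [← hh2]
  set J : ℕ := ⌈2 * Λ / κ⌉₊ with hJ
  have hJ1 : 2 * Λ / κ ≤ J := Nat.le_ceil _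
  have hJ2 : (J : ℝ) < 2 * Λ / κ + 1 := Nat.ceil_lt_add_one (by positivity)
  set lev : (Fin n → Bool) → ℤ := fun x => ⌊Real.log |h x| - m⌋ with hlev
  set near : (Fin n → Bool) → Prop := fun x => -(J : ℤ) ≤ lev x ∧ lev x < J with hnear
  -- middle part
  have hmid := middle hd c hc hf hpr (m := m) (g := g) (D := J) (by positivity) hem
    (by rw [← hF, hgΛ]; exact hΛ0) (fun x => if near x then h x else 0) (by
      intro x
      by_cases hx : h x = 0
      · left; simp [hx]
      · by_cases hn : near x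
        · right
          simp only [hn, if_true]
          have hpos : 0 < |h x| := abs_pos.2 hx
          obtain ⟨hn1, hn2⟩ := hn
          have a1 : ((lev x : ℤ) : ℝ) ≤ Real.log |h x| - m := Int.floor_le _
          have a2 : Real.log |h x| - m < (lev x : ℝ) + 1 := Int.lt_floor_add_one _
          have a3 : (-(J : ℝ)) ≤ (lev x : ℝ) := by exact_mod_cast hn1
          have a4 : (lev x : ℝ) + 1 ≤ J := by exact_mod_cast hn2
          constructor
          · rw [← Real.le_log_iff_exp_le hpos]; linarith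
          · rw [← Real.log_le_iff_le_exp hpos]; linarith
        · left; simp [hn]) (restrict_le hr0 h _ hh1)
  rw [← hF, hgΛ] at hmid
  -- far part
  set far := univ.filter (fun x => ¬ near x) with hfar
  have hsplit : ∑ x, h x * lap c x =
      ∑ x, (if near x then h x else 0) * lap c x + ∑ x ∈ far, h x * lap c x := by
    rw [hfar, sum_filter, ← sum_add_distrib]
    refine sum_congr rfl fun x _ => ?_
    by_cases hn : near x <;> simp [hn]
  have hfib : ∑ x ∈ far, h x * lap c x =
      ∑ j ∈ far.image lev, ∑ x, (if lev x = j then h x else 0) * lap c x := by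
    rw [← sum_fiberwise_of_maps_to (g := lev) (t := far.image lev)
      (fun x hx => mem_image_of_mem _ hx)]
    refine sum_congr rfl fun j hj => ?_
    obtain ⟨y, hy, hyj⟩ := mem_image.1 hj
    rw [sum_filter, hfar, sum_filter]
    refine sum_congr rfl fun x _ => ?_
    have hny : ¬ near y := (mem_filter.1 hy).2
    by_cases hx : lev x = j
    · have hnx : ¬ near x := by
        intro hh
        apply hny
        simp only [hnear] at hh ⊢
        rw [hyj, ← hx]
        exact hh
      simp [hx, hnx]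
    · simp [hx]
  have hpiece : ∀ j ∈ far.image lev, |∑ x, (if lev x = j then h x else 0) * lap c x| ≤
      32 * d * F * Real.exp (1 + r) * wt κ r j := by
    intro j hj
    obtain ⟨y, hy, hyj⟩ := mem_image.1 hj
    have hny : ¬ near y := (mem_filter.1 hy).2
    have hjJ : (J : ℝ) ≤ |(j : ℝ)| := by
      simp only [hnear, hyj] at hny
      have : (J : ℤ) ≤ |j| := by
        by_cases h6 : -(J : ℤ) ≤ j
        · have h7 : (J : ℤ) ≤ j := by
            by_contra h8
            exact hny ⟨h6, not_le.1 h8⟩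
          exact h7.trans (le_abs_self j)
        · have h7 : (J : ℤ) ≤ -j := by omega
          exact h7.trans (neg_le_abs j)
      calc (J : ℝ) = ((J : ℤ) : ℝ) := by push_cast; rfl
        _ ≤ ((|j| : ℤ) : ℝ) := by exact_mod_cast this
        _ = |(j : ℝ)| := by push_cast; rfl
    have hu : ∀ x, (if lev x = j then h x else 0) = 0 ∨
        (Real.exp (m + j - 1) ≤ |(if lev x = j then h x else 0)| ∧
          |(if lev x = j then h x else 0)| ≤ Real.exp (m + j + 1)) := by
      intro x
      by_cases hx : h x = 0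
      · left; simp [hx]
      · by_cases hn : lev x = j
        · right
          simp only [hn, if_true]
          have hpos : 0 < |h x| := abs_pos.2 hx
          have a1 : ((lev x : ℤ) : ℝ) ≤ Real.log |h x| - m := Int.floor_le _
          have a2 : Real.log |h x| - m < (lev x : ℝ) + 1 := Int.lt_floor_add_one _
          rw [hn] at a1 a2
          constructor
          · rw [← Real.le_log_iff_exp_le hpos]; linarith
          · rw [← Real.log_le_iff_le_exp hpos]; linarith
        · left; simp [hn]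
    have hr1 := restrict_le hr0 h (fun x => lev x = j) hh1
    have hκj : κ * |(j : ℝ)| - Λ ≥ κ / 2 * |(j : ℝ)| := by
      have : Λ ≤ κ / 2 * |(j : ℝ)| := by
        have h6 := hJ1.trans hjJ
        rw [div_le_iff₀ hκ0] at h6
        linarith
      linarith
    have hfinal : ∀ e : ℝ, e ≤ -(κ * |(j : ℝ)|) →
        32 * (d : ℝ) * Real.exp (g + (1 + r) + e) * (r * |(j : ℝ)| + 2) ≤
          32 * d * F * Real.exp (1 + r) * wt κ r j := by
      intro e he
      have h7 : Real.exp (g + (1 + r) + e) ≤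
          F * Real.exp (1 + r) * Real.exp (-(κ / 2) * |(j : ℝ)|) := by
        have h8 : F = Real.exp (Real.log F) := (Real.exp_log hFpos).symm
        conv_rhs => rw [h8]
        rw [← Real.exp_add, ← Real.exp_add]
        apply Real.exp_le_exp.2
        have h9 : g = Λ + Real.log F := by linarith [hgΛ]
        rw [h9]
        linarith
      unfold wt
      calc 32 * (d : ℝ) * Real.exp (g + (1 + r) + e) * (r * |(j : ℝ)| + 2)
          ≤ 32 * (d : ℝ) * (F * Real.exp (1 + r) * Real.exp (-(κ / 2) * |(j : ℝ)|)) *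
              (r * |(j : ℝ)| + 2) := by
            gcongr
        _ = _ := by ring
    rcases le_or_gt 0 (j : ℝ) with hj0 | hj0
    · have hp := piece hd c hc hf hpr hq1 (m := m) (g := g) (τ := (j : ℝ)) g1 he1 _ hu hr1
      refine hp.trans (hfinal _ ?_)
      rw [abs_of_nonneg hj0]
      have h8 : κ ≤ r * (1 / p - 1 / p1) := min_le_right _ _
      have h9 := mul_le_mul_of_nonneg_right h8 hj0
      have h10 : r * (1 / p1 - 1 / p) * (j : ℝ) = -(r * (1 / p - 1 / p1) * (j : ℝ)) := by ring
      rw [h10]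
      exact neg_le_neg h9
    · have hp := piece hd c hc hf hpr hq0 (m := m) (g := g) (τ := (j : ℝ)) g0 he0 _ hu hr1
      refine hp.trans (hfinal _ ?_)
      rw [abs_of_neg hj0]
      have h8 : κ ≤ r * (1 / p0 - 1 / p) := min_le_left _ _
      have h9 := mul_le_mul_of_nonpos_right h8 hj0.le
      have h10 : -(κ * -(j : ℝ)) = κ * (j : ℝ) := by ring
      rw [h10]
      exact h9
  have hfarbd : |∑ x ∈ far, h x * lap c x| ≤ 32 * d * F * Real.exp (1 + r) * W := by
    rw [hfib]
    calc |∑ j ∈ far.image lev, ∑ x, (if lev x = j then h x else 0) * lap c x|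
        ≤ ∑ j ∈ far.image lev, |∑ x, (if lev x = j then h x else 0) * lap c x| :=
          abs_sum_le_sum_abs _ _
      _ ≤ ∑ j ∈ far.image lev, 32 * d * F * Real.exp (1 + r) * wt κ r j := sum_le_sum hpiece
      _ = 32 * d * F * Real.exp (1 + r) * ∑ j ∈ far.image lev, wt κ r j := by rw [mul_sum]
      _ ≤ 32 * d * F * Real.exp (1 + r) * W := by
          apply mul_le_mul_of_nonneg_left _ (by positivity)
          exact (summable_wt hκ0).sum_le_tsum _ (fun j _ => wt_nonneg hr0 j)
  rw [hsplit]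
  have htot : ∑ x, (if near x then h x else 0) * lap c x + ∑ x ∈ far, h x * lap c x ≤
      32 * d * F * ((Λ + (1 + r) * J) + 2) + 32 * d * F * Real.exp (1 + r) * W :=
    add_le_add ((le_abs_self _).trans hmid) ((le_abs_self _).trans hfarbd)
  refine htot.trans ?_
  have hJ3 : (1 + r) * (J : ℝ) ≤ (2 * (1 + r) / κ) * Λ + (1 + r) := by
    have : (2 * (1 + r) / κ) * Λ + (1 + r) = (1 + r) * (2 * Λ / κ + 1) := by
      field_simp
    rw [this]
    exact mul_le_mul_of_nonneg_left hJ2.le (by positivity)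
  have hK : 0 ≤ 1 + 2 * (1 + r) / κ := by positivity
  have hK2 : 0 ≤ 1 + r + 2 + Real.exp (1 + r) * W := by positivity
  have hfin : (Λ + (1 + r) * J) + 2 + Real.exp (1 + r) * W ≤
      ((1 + 2 * (1 + r) / κ) + (1 + r + 2 + Real.exp (1 + r) * W)) * (1 + Λ) := by
    have e1 : (1 + r + 2 + Real.exp (1 + r) * W) * 1 ≤
        (1 + r + 2 + Real.exp (1 + r) * W) * (1 + Λ) :=
      mul_le_mul_of_nonneg_left (by linarith) hK2
    have e2 : (1 + 2 * (1 + r) / κ) * Λ ≤ (1 + 2 * (1 + r) / κ) * (1 + Λ) :=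
      mul_le_mul_of_nonneg_left (by linarith) hK
    have e3 : ((1 + 2 * (1 + r) / κ) + (1 + r + 2 + Real.exp (1 + r) * W)) * (1 + Λ) =
        (1 + 2 * (1 + r) / κ) * (1 + Λ) + (1 + r + 2 + Real.exp (1 + r) * W) * (1 + Λ) := by ring
    have e4 : (1 + 2 * (1 + r) / κ) * Λ = Λ + 2 * (1 + r) / κ * Λ := by ring
    rw [e3]
    linarith
  have hdF : 0 ≤ 32 * (d : ℝ) * F := by positivity
  calc 32 * (d : ℝ) * F * ((Λ + (1 + r) * J) + 2) + 32 * d * F * Real.exp (1 + r) * W
      = 32 * (d : ℝ) * F * ((Λ + (1 + r) * J) + 2 + Real.exp (1 + r) * W) := by ring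
    _ ≤ 32 * (d : ℝ) * F *
          (((1 + 2 * (1 + r) / κ) + (1 + r + 2 + Real.exp (1 + r) * W)) * (1 + Λ)) :=
        mul_le_mul_of_nonneg_left hfin hdF
    _ = C * d * (1 + Λ) * F := by rw [hC]; ring

end Pool.Agent.Helper91.MB
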